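import Mathlib

/-!
# Random lifts of the complete digraph on three vertices are not Hamiltonian

We prove that the probability that a random `n`-lift of the complete digraph on three vertices is
Hamiltonian tends to `0`.
-/

namespace Pool.Agent.Results.MP_ff6929_pr.NotHamiltonian

open Equiv Filter Topology

/-- The arcs of the complete digraph on `h` vertices: all ordered pairs of distinct vertices. -/
abbrev Arc (h : ℕ) : Type := {e : Fin h × Fin h // e.1 ≠ e.2}

/-- The data of an `n`-lift of the complete digraph on `h` vertices: for every arc `(x, y)` a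
perfect matching between `A_x = {x} × Fin n` and `A_y = {y} × Fin n`, given as a bijection of
`Fin n`. -/
abbrev LiftData (h n : ℕ) : Type := Arc h → Perm (Fin n)

/-- The arc relation of the lift. -/
def LiftAdj {h n : ℕ} (M : LiftData h n) (v w : Fin h × Fin n) : Prop :=
  ∃ hvw : v.1 ≠ w.1, M ⟨(v.1, w.1), hvw⟩ v.2 = w.2

/-- A digraph on a finite vertex set is Hamiltonian if its vertices can be enumerated cyclically
so that there is an arc from each vertex to the next one. -/
def IsHamiltonian {V : Type} [Fintype V] (Adj : V → V → Prop) : Prop :=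
  ∃ f : ZMod (Fintype.card V) ≃ V, ∀ i, Adj (f i) (f (i + 1))

/-- The probability that the random `n`-lift of the complete digraph on `h` vertices is
Hamiltonian: all choices of the matchings are equally likely. -/
noncomputable def hamProb (h n : ℕ) : ℝ :=
  (Nat.card {M : LiftData h n // IsHamiltonian (LiftAdj M)} : ℝ) / Nat.card (LiftData h n)

/-! ### Invariant subsets of a permutation -/

/-- The invariant subsets of a permutation. -/
def invSets {n : ℕ} (π : Perm (Fin n)) : Finset (Finset (Fin n)) :=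
  Finset.univ.filter fun T => ∀ a, a ∈ T ↔ π a ∈ T

lemma invSets_zero {n : ℕ} (τ : Perm (Fin n)) :
    (invSets (Perm.decomposeFin.symm (0, τ))).card ≤ 2 * (invSets τ).card := by
  classical
  have hcard : 2 * (invSets τ).card = ((Finset.univ : Finset Bool) ×ˢ invSets τ).card := by
    rw [Finset.card_product]; simp
  rw [hcard]
  refine Finset.card_le_card_of_injOn
    (fun T => (decide (0 ∈ T), Finset.univ.filter fun k : Fin n => k.succ ∈ T)) ?_ ?_
  · intro T hT
    simp only [invSets, Finset.coe_filter, Finset.mem_univ, true_and, Set.mem_ofPred_eq] at hT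
    simp only [Finset.coe_product, Set.mem_prod, Finset.coe_univ, Set.mem_univ, true_and,
      invSets, Finset.coe_filter, Finset.mem_univ, Set.mem_ofPred_eq, Finset.mem_filter]
    intro a
    rw [hT a.succ, Perm.decomposeFin_symm_apply_succ, swap_self]
    rfl
  · intro T hT T' hT' h
    simp only [Prod.mk.injEq, decide_eq_decide] at h
    obtain ⟨h0, h1⟩ := h
    ext k
    refine Fin.cases h0 (fun j => ?_) k
    have := congrArg (fun s => j ∈ s) h1
    simpa using this

lemma invSets_succ {n : ℕ} (j : Fin n) (τ : Perm (Fin n)) :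
    (invSets (Perm.decomposeFin.symm (j.succ, τ))).card ≤ (invSets τ).card := by
  classical
  refine Finset.card_le_card_of_injOn (fun T => Finset.univ.filter fun k : Fin n => k.succ ∈ T)
    ?_ ?_
  · intro T hT
    simp only [invSets, Finset.coe_filter, Finset.mem_univ, true_and, Set.mem_ofPred_eq] at hT
    simp only [invSets, Finset.coe_filter, Finset.mem_univ, Set.mem_ofPred_eq, Finset.mem_filter,
      true_and]
    intro a
    rw [hT a.succ, Perm.decomposeFin_symm_apply_succ]
    by_cases h : τ a = j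
    · rw [h, swap_apply_right, hT 0, Perm.decomposeFin_symm_apply_zero]
    · rw [swap_apply_of_ne_of_ne (Fin.succ_ne_zero _) (fun h' => h (Fin.succ_injective _ h'))]
  · intro T hT T' hT' h
    simp only [invSets, Finset.coe_filter, Finset.mem_univ, true_and, Set.mem_ofPred_eq] at hT hT'
    have hs : ∀ k : Fin n, k.succ ∈ T ↔ k.succ ∈ T' := by
      intro k
      have := congrArg (fun s => k ∈ s) h
      simpa using this
    ext k
    refine Fin.cases ?_ (fun j => hs j) k
    rw [hT 0, hT' 0, Perm.decomposeFin_symm_apply_zero]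
    exact hs j

lemma sum_sqrt_le (n : ℕ) : ∑ π : Perm (Fin n), √((invSets π).card : ℝ) ≤
    ∏ i ∈ Finset.range n, (√2 + i) := by
  induction n with
  | zero =>
    simp only [Finset.univ_unique, Finset.sum_singleton, Finset.range_zero, Finset.prod_empty]
    rw [Real.sqrt_le_one]
    have : (invSets (default : Perm (Fin 0))).card ≤ 1 := by
      refine (Finset.card_le_univ _).trans ?_
      simp
    exact_mod_cast this
  | succ n ih =>
    rw [← Perm.decomposeFin.symm.sum_comp, Fintype.sum_prod_type, Fin.sum_univ_succ,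
      Finset.prod_range_succ]
    have h0 : ∑ τ : Perm (Fin n), √((invSets (Perm.decomposeFin.symm (0, τ))).card : ℝ) ≤
        √2 * ∑ τ : Perm (Fin n), √((invSets τ).card : ℝ) := by
      rw [Finset.mul_sum]
      refine Finset.sum_le_sum fun τ _ => ?_
      rw [← Real.sqrt_mul (by norm_num)]
      refine Real.sqrt_le_sqrt ?_
      exact_mod_cast invSets_zero τ
    have h1 : ∑ i : Fin n, ∑ τ : Perm (Fin n),
        √((invSets (Perm.decomposeFin.symm (i.succ, τ))).card : ℝ) ≤
        n * ∑ τ : Perm (Fin n), √((invSets τ).card : ℝ) := by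
      calc ∑ i : Fin n, ∑ τ : Perm (Fin n),
            √((invSets (Perm.decomposeFin.symm (i.succ, τ))).card : ℝ)
          ≤ ∑ i : Fin n, ∑ τ : Perm (Fin n), √((invSets τ).card : ℝ) := by
            refine Finset.sum_le_sum fun i _ => Finset.sum_le_sum fun τ _ => ?_
            refine Real.sqrt_le_sqrt ?_
            exact_mod_cast invSets_succ i τ
        _ = n * ∑ τ : Perm (Fin n), √((invSets τ).card : ℝ) := by simp
    calc _ ≤ √2 * ∑ τ : Perm (Fin n), √((invSets τ).card : ℝ) +
          n * ∑ τ : Perm (Fin n), √((invSets τ).card : ℝ) := add_le_add h0 h1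
      _ = (√2 + n) * ∑ τ : Perm (Fin n), √((invSets τ).card : ℝ) := by ring
      _ ≤ (√2 + n) * ∏ i ∈ Finset.range n, (√2 + i) :=
          mul_le_mul_of_nonneg_left ih (by positivity)
      _ = (∏ i ∈ Finset.range n, (√2 + i)) * (√2 + n) := by ring

/-! ### One-factors of the lift -/

section Factors

variable {n : ℕ}

/-- The matching of the arc `(x, y)` (junk value if `x = y`). -/
def mt (M : LiftData 3 n) (x y : Fin 3) : Perm (Fin n) :=
  if h : x ≠ y then M ⟨(x, y), h⟩ else 1

lemma adj_iff (M : LiftData 3 n) (x y : Fin 3) (a b : Fin n) :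
    LiftAdj M (x, a) (y, b) ↔ x ≠ y ∧ mt M x y a = b := by
  unfold LiftAdj mt
  constructor
  · rintro ⟨h, h'⟩
    exact ⟨h, by simpa [h] using h'⟩
  · rintro ⟨h, h'⟩
    exact ⟨h, by simpa [h] using h'⟩

/-- A one-factor: a bijection of the vertex set along arcs. -/
def IsFactor (M : LiftData 3 n) (F : Fin 3 × Fin n → Fin 3 × Fin n) : Prop :=
  Function.Bijective F ∧ ∀ v, LiftAdj M v (F v)

lemma factor_apply {M : LiftData 3 n} {F : Fin 3 × Fin n → Fin 3 × Fin n} (hF : IsFactor M F)
    (x : Fin 3) (a : Fin n) : (F (x, a)).1 ≠ x ∧ F (x, a) = ((F (x, a)).1, mt M x (F (x, a)).1 a) := by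
  have h := hF.2 (x, a)
  rw [show F (x, a) = ((F (x, a)).1, (F (x, a)).2) from rfl, adj_iff] at h
  refine ⟨h.1.symm, ?_⟩
  conv_lhs => rw [show F (x, a) = ((F (x, a)).1, (F (x, a)).2) from rfl]
  rw [h.2]

/-- Exactly one of the two possible in-arcs of a vertex is used. -/
lemma factor_step {M : LiftData 3 n} {F : Fin 3 × Fin n → Fin 3 × Fin n} (hF : IsFactor M F)
    (x y z : Fin 3) (hxy : x ≠ y) (hxz : x ≠ z) (hyz : y ≠ z) (a : Fin n) :
    (F (x, a)).1 = z ↔ (F (y, (mt M y z).symm (mt M x z a))).1 = x := by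
  constructor
  · intro h
    by_contra hne
    have h1 := factor_apply hF x a
    have h2 := factor_apply hF y ((mt M y z).symm (mt M x z a))
    have h3 : (F (y, (mt M y z).symm (mt M x z a))).1 = z := by
      have := h2.1
      omega
    rw [h] at h1
    rw [h3, Equiv.apply_symm_apply] at h2
    have := hF.1.1 (h1.2.trans h2.2.symm)
    exact hxy (congrArg Prod.fst this)
  · intro h
    by_contra hne
    obtain ⟨⟨w, b⟩, hw⟩ := hF.1.2 (z, mt M x z a)
    have h1 := factor_apply hF w b
    rw [hw] at h1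
    simp only [Prod.mk.injEq, true_and] at h1
    have hwz : w ≠ z := fun h' => h1.1 h'.symm
    have hcase : w = x ∨ w = y := by omega
    rcases hcase with rfl | rfl
    · have : a = b := (mt M w z).injective h1.2
      subst this
      rw [hw] at hne
      exact hne rfl
    · have : (mt M w z).symm (mt M x z a) = b := by
        rw [Equiv.symm_apply_eq]; exact h1.2
      rw [this, hw] at h
      exact hxz h.symm

/-- The composition of the matchings around the hexagon. -/
def hex (M : LiftData 3 n) : Perm (Fin n) :=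
  (mt M 0 2)⁻¹ * (mt M 1 2 * (mt M 1 0)⁻¹ * mt M 2 0 * (mt M 2 1)⁻¹ * mt M 0 1)

lemma card_factors_le (M : LiftData 3 n) :
    Nat.card {F : Fin 3 × Fin n → Fin 3 × Fin n // IsFactor M F} ≤ (invSets (hex M)).card := by
  classical
  have hcard : (invSets (hex M)).card = Nat.card (invSets (hex M)) := by simp
  rw [hcard]
  let g : {F : Fin 3 × Fin n → Fin 3 × Fin n // IsFactor M F} → (invSets (hex M)) := fun F =>
    ⟨Finset.univ.filter fun a => (F.1 (0, a)).1 = 1, by
      simp only [invSets, Finset.mem_filter, Finset.mem_univ, true_and]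
      intro a
      rw [factor_step F.2 0 2 1 (by decide) (by decide) (by decide),
        factor_step F.2 2 1 0 (by decide) (by decide) (by decide),
        factor_step F.2 1 0 2 (by decide) (by decide) (by decide)]
      rfl⟩
  refine Nat.card_le_card_of_injective g ?_
  rintro ⟨F, hF⟩ ⟨F', hF'⟩ h
  simp only [g, Subtype.mk.injEq] at h
  have h0 : ∀ a, (F (0, a)).1 = 1 ↔ (F' (0, a)).1 = 1 := by
    intro a
    have := congrArg (fun s => a ∈ s) h
    simpa using this
  have h2 : ∀ b, (F (2, b)).1 = 0 ↔ (F' (2, b)).1 = 0 := by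
    intro b
    have e1 := factor_step hF 0 2 1 (by decide) (by decide) (by decide)
      ((mt M 0 1).symm (mt M 2 1 b))
    have e2 := factor_step hF' 0 2 1 (by decide) (by decide) (by decide)
      ((mt M 0 1).symm (mt M 2 1 b))
    rw [Equiv.apply_symm_apply, Equiv.symm_apply_apply] at e1 e2
    rw [← e1, ← e2]
    exact h0 _
  have h1 : ∀ b, (F (1, b)).1 = 2 ↔ (F' (1, b)).1 = 2 := by
    intro b
    rw [factor_step hF 1 0 2 (by decide) (by decide) (by decide),
      factor_step hF' 1 0 2 (by decide) (by decide) (by decide)]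
    exact h0 _
  refine Subtype.ext (funext fun v => ?_)
  obtain ⟨x, a⟩ := v
  have k := factor_apply hF x a
  have k' := factor_apply hF' x a
  have hfst : (F (x, a)).1 = (F' (x, a)).1 := by
    fin_cases x
    · have := h0 a
      simp only [Fin.zero_eta] at k k' ⊢
      have k1 := k.1
      have k2 := k'.1
      by_cases hc : (F (0, a)).1 = 1
      · rw [hc, this.mp hc]
      · have hc' : (F' (0, a)).1 ≠ 1 := fun h' => hc (this.mpr h')
        omega
    · have := h1 a
      simp only [Fin.mk_one] at k k' ⊢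
      have k1 := k.1
      have k2 := k'.1
      by_cases hc : (F (1, a)).1 = 2
      · rw [hc, this.mp hc]
      · have hc' : (F' (1, a)).1 ≠ 2 := fun h' => hc (this.mpr h')
        omega
    · have := h2 a
      simp only [Fin.reduceFinMk] at k k' ⊢
      have k1 := k.1
      have k2 := k'.1
      by_cases hc : (F (2, a)).1 = 0
      · rw [hc, this.mp hc]
      · have hc' : (F' (2, a)).1 ≠ 0 := fun h' => hc (this.mpr h')
        omega
  change F (x, a) = F' (x, a)
  rw [k.2, k'.2, hfst]

end Factors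

/-! ### First return to the fibre `A_0` -/

section Return

variable {n : ℕ}

/-- Apply `σ` on the fibre of `0`. -/
def hat (σ : Perm (Fin n)) (v : Fin 3 × Fin n) : Fin 3 × Fin n := if v.1 = 0 then (0, σ v.2) else v

lemma hat_fst (σ : Perm (Fin n)) (v : Fin 3 × Fin n) : (hat σ v).1 = v.1 := by
  unfold hat; split_ifs with h
  · exact h.symm
  · rfl

lemma hat_hat (σ τ : Perm (Fin n)) (v : Fin 3 × Fin n) : hat σ (hat τ v) = hat (σ * τ) v := by
  unfold hat; split_ifs <;> simp_all

lemma hat_one (v : Fin 3 × Fin n) : hat 1 v = v := by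
  unfold hat; split_ifs with h
  · exact Prod.ext h.symm rfl
  · rfl

lemma hat_bijective (σ : Perm (Fin n)) : Function.Bijective (hat σ) := by
  refine Function.bijective_iff_has_inverse.mpr ⟨hat σ⁻¹, fun v => ?_, fun v => ?_⟩
  · rw [hat_hat, inv_mul_cancel, hat_one]
  · rw [hat_hat, mul_inv_cancel, hat_one]

/-- A map all of whose orbits are everything. -/
def Full {α : Type} (c : α → α) : Prop := ∀ v w, ∃ m : ℕ, c^[m] v = w

open Classical in
/-- The first return to the fibre of `0` along `F`. -/
noncomputable def ret (F : Fin 3 × Fin n → Fin 3 × Fin n) (b : Fin n) : Fin n :=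
  if h : ∃ k, (F^[k] (F (0, b))).1 = 0 then (F^[Nat.find h] (F (0, b))).2 else b

lemma key (F : Fin 3 × Fin n → Fin 3 × Fin n) (σ : Perm (Fin n)) (j : ℕ) :
    ∀ v, (((fun v => F (hat σ v))^[j]) v).1 = 0 → ∃ k ≤ j,
      ((fun v => F (hat σ v))^[k]) v = F^[k] v ∧ (F^[k] v).1 = 0 ∧ ∀ i < k, (F^[i] v).1 ≠ 0 := by
  induction j with
  | zero =>
    intro v hv
    exact ⟨0, le_rfl, rfl, hv, fun i hi => absurd hi (Nat.not_lt_zero i)⟩
  | succ j ih =>
    intro v hv
    by_cases h0 : v.1 = 0
    · exact ⟨0, Nat.zero_le _, rfl, h0, fun i hi => absurd hi (Nat.not_lt_zero i)⟩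
    · have hc : F (hat σ v) = F v := by rw [hat, if_neg h0]
      rw [Function.iterate_succ_apply] at hv
      simp only [hc] at hv
      obtain ⟨k, hk, hk1, hk2, hk3⟩ := ih (F v) hv
      refine ⟨k + 1, Nat.succ_le_succ hk, ?_, ?_, ?_⟩
      · rw [Function.iterate_succ_apply, Function.iterate_succ_apply]
        simp only [hc]
        exact hk1
      · rw [Function.iterate_succ_apply]; exact hk2
      · intro i hi
        rcases Nat.eq_zero_or_pos i with rfl | hi0
        · exact h0
        · obtain ⟨i', rfl⟩ : ∃ i', i = i' + 1 := ⟨i - 1, by omega⟩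
          rw [Function.iterate_succ_apply]
          exact hk3 i' (by omega)

lemma trans_of_iterate (F : Fin 3 × Fin n → Fin 3 × Fin n) (σ : Perm (Fin n)) (j : ℕ) :
    ∀ a b, ((fun v => F (hat σ v))^[j]) (0, a) = (0, b) →
      ∃ m : ℕ, (fun x => ret F (σ x))^[m] a = b := by
  induction j using Nat.strong_induction_on with
  | _ j ih =>
    intro a b hab
    rcases Nat.eq_zero_or_pos j with rfl | hj
    · exact ⟨0, by simpa using hab⟩
    · obtain ⟨j', rfl⟩ : ∃ j', j = j' + 1 := ⟨j - 1, by omega⟩
      rw [Function.iterate_succ_apply] at hab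
      have hc : F (hat σ (0, a)) = F (0, σ a) := by rw [hat]; simp
      simp only [hc] at hab
      obtain ⟨k, hk, hk1, hk2, hk3⟩ := key F σ j' (F (0, σ a)) (by rw [hab])
      have hret : F^[k] (F (0, σ a)) = (0, ret F (σ a)) := by
        classical
        have hex : ∃ k, (F^[k] (F (0, σ a))).1 = 0 := ⟨k, hk2⟩
        have hfind : Nat.find hex = k := by
          rw [Nat.find_eq_iff]
          exact ⟨hk2, fun i hi => hk3 i hi⟩
        have h1 : ret F (σ a) = (F^[k] (F (0, σ a))).2 := by
          rw [ret, dif_pos hex, ← hfind]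
        exact Prod.ext hk2 h1.symm
      have hsplit : ((fun v => F (hat σ v))^[j' - k]) (0, ret F (σ a)) = (0, b) := by
        rw [← hret, ← hk1, ← Function.iterate_add_apply, Nat.sub_add_cancel hk]
        exact hab
      obtain ⟨m, hm⟩ := ih (j' - k) (by omega) _ _ hsplit
      exact ⟨m + 1, by rw [Function.iterate_succ_apply]; exact hm⟩

lemma full_bijective {r : Fin n → Fin n} (hr : Full r) : Function.Bijective r := by
  rw [← Finite.surjective_iff_bijective]
  intro b
  obtain ⟨m, hm⟩ := hr (r b) b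
  exact ⟨r^[m] b, by rw [← Function.iterate_succ_apply' r m b, Function.iterate_succ_apply]; exact hm⟩

lemma cycleType_of_full (hn : 2 ≤ n) (ρ : Perm (Fin n)) (hρ : Full ρ) : ρ.cycleType = {n} := by
  have hne : ∀ x, ρ x ≠ x := by
    intro x hx
    have : ∃ y : Fin n, y ≠ x := by
      have : Nontrivial (Fin n) := Fin.nontrivial_iff_two_le.mpr hn
      exact exists_ne x
    obtain ⟨y, hy⟩ := this
    obtain ⟨m, hm⟩ := hρ x y
    rw [Function.iterate_fixed hx] at hm
    exact hy hm.symm
  have hcyc : ρ.IsCycle := by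
    refine ⟨⟨0, by omega⟩, hne _, fun y _ => ?_⟩
    obtain ⟨m, hm⟩ := hρ ⟨0, by omega⟩ y
    exact ⟨m, by rw [zpow_natCast, ← Perm.iterate_eq_pow]; exact hm⟩
  have hsupp : ρ.support = Finset.univ := by
    ext x; simp [hne x]
  rw [hcyc.cycleType, hsupp]
  simp

lemma card_full_le (hn : 2 ≤ n) (F : Fin 3 × Fin n → Fin 3 × Fin n) :
    Nat.card {σ : Perm (Fin n) // Full fun v => F (hat σ v)} ≤ (n - 1).factorial := by
  classical
  have hbij : ∀ σ : Perm (Fin n), (Full fun v => F (hat σ v)) → Full fun x => ret F (σ x) := by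
    intro σ hσ a b
    obtain ⟨j, hj⟩ := hσ (0, a) (0, b)
    exact trans_of_iterate F σ j a b hj
  have hcard : Nat.card {g : Perm (Fin n) // g.cycleType = {n}} = (n - 1).factorial := by
    rw [Nat.card_eq_fintype_card, Fintype.card_subtype,
      Perm.card_of_cycleType_singleton hn (by simp)]
    simp
  rw [← hcard]
  let g : {σ : Perm (Fin n) // Full fun v => F (hat σ v)} →
      {g : Perm (Fin n) // g.cycleType = {n}} := fun σ =>
    ⟨Equiv.ofBijective _ (full_bijective (hbij σ.1 σ.2)),
      cycleType_of_full hn _ (hbij σ.1 σ.2)⟩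
  refine Nat.card_le_card_of_injective g ?_
  rintro ⟨σ, hσ⟩ ⟨σ', hσ'⟩ h
  have h1 : ∀ x, ret F (σ x) = ret F (σ' x) := by
    intro x
    have := congrArg (fun e => (e.1 : Perm (Fin n)) x) h
    exact this
  have hinj : Function.Injective (ret F) := by
    have h2 := (full_bijective (hbij σ hσ)).1
    intro x y hxy
    obtain ⟨x', rfl⟩ := σ.surjective x
    obtain ⟨y', rfl⟩ := σ.surjective y
    rw [h2 hxy]
  exact Subtype.ext (Equiv.ext fun x => hinj (h1 x))

end Return

/-! ### Twisting a lift -/

section Twist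

variable {n : ℕ}

/-- Precompose all matchings leaving the fibre of `0` with `σ`. -/
def twist (σ : Perm (Fin n)) (M : LiftData 3 n) : LiftData 3 n := fun e =>
  if e.1.1 = 0 then M e * σ else M e

lemma twist_twist (σ τ : Perm (Fin n)) (M : LiftData 3 n) :
    twist σ (twist τ M) = twist (τ * σ) M := by
  funext e
  unfold twist
  split_ifs <;> simp [mul_assoc]

lemma twist_one (M : LiftData 3 n) : twist 1 M = M := by
  funext e
  unfold twist
  split_ifs <;> simp

/-- Twisting as a bijection of the set of lifts. -/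
def twistEquiv (σ : Perm (Fin n)) : LiftData 3 n ≃ LiftData 3 n where
  toFun := twist σ
  invFun := twist σ⁻¹
  left_inv M := by rw [twist_twist, mul_inv_cancel, twist_one]
  right_inv M := by rw [twist_twist, inv_mul_cancel, twist_one]

lemma adj_twist (σ : Perm (Fin n)) (M : LiftData 3 n) (v w : Fin 3 × Fin n) :
    LiftAdj (twist σ M) v w ↔ LiftAdj M (hat σ v) w := by
  unfold LiftAdj twist hat
  obtain ⟨x, a⟩ := v
  by_cases h : x = 0
  · subst h; simp
  · simp [h]

lemma hamiltonian_full {V : Type} [Fintype V] {Adj : V → V → Prop} (h : IsHamiltonian Adj) :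
    ∃ c : V → V, Full c ∧ Function.Bijective c ∧ ∀ v, Adj v (c v) := by
  obtain ⟨f, hf⟩ := h
  refine ⟨fun v => f (f.symm v + 1), fun v w => ?_, ?_, fun v => ?_⟩
  · have : Nonempty V := ⟨v⟩
    have : NeZero (Fintype.card V) := ⟨Fintype.card_ne_zero⟩
    have hit : ∀ m : ℕ, (fun v => f (f.symm v + 1))^[m] v = f (f.symm v + m) := by
      intro m
      induction m with
      | zero => simp
      | succ m ih => rw [Function.iterate_succ_apply', ih]; simp [add_assoc]
    refine ⟨(f.symm w - f.symm v).val, ?_⟩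
    rw [hit, ZMod.natCast_zmod_val]
    simp
  · exact f.bijective.comp ((Equiv.addRight (1 : ZMod (Fintype.card V))).bijective.comp
      f.symm.bijective)
  · have := hf (f.symm v)
    simpa using this

lemma card_ham_twist_le (hn : 2 ≤ n) (M : LiftData 3 n) :
    Nat.card {σ : Perm (Fin n) // IsHamiltonian (LiftAdj (twist σ M))} ≤
      (invSets (hex M)).card * (n - 1).factorial := by
  classical
  let A := {F : Fin 3 × Fin n → Fin 3 × Fin n // IsFactor M F}
  have hA : Nat.card (Σ F : A, {σ : Perm (Fin n) // Full fun v => F.1 (hat σ v)}) ≤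
      (invSets (hex M)).card * (n - 1).factorial := by
    rw [Nat.card_sigma]
    calc ∑ F : A, Nat.card {σ : Perm (Fin n) // Full fun v => F.1 (hat σ v)}
        ≤ ∑ F : A, (n - 1).factorial := Finset.sum_le_sum fun F _ => card_full_le hn F.1
      _ = Nat.card A * (n - 1).factorial := by simp
      _ ≤ _ := Nat.mul_le_mul_right _ (card_factors_le M)
  refine le_trans ?_ hA
  have hex : ∀ σ : {σ : Perm (Fin n) // IsHamiltonian (LiftAdj (twist σ M))},
      ∃ F : A, Full fun v => F.1 (hat σ.1 v) := by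
    rintro ⟨σ, hσ⟩
    obtain ⟨c, hc, hcb, hcadj⟩ := hamiltonian_full hσ
    refine ⟨⟨fun v => c (hat σ⁻¹ v), hcb.comp (hat_bijective _), fun v => ?_⟩, ?_⟩
    · have := hcadj (hat σ⁻¹ v)
      rwa [adj_twist, hat_hat, mul_inv_cancel, hat_one] at this
    · have : (fun v => c (hat σ⁻¹ (hat σ v))) = c := by
        funext v
        rw [hat_hat, inv_mul_cancel, hat_one]
      simp only
      rw [this]
      exact hc
  choose G hG using hex
  refine Nat.card_le_card_of_injective (fun σ => ⟨G σ, ⟨σ.1, hG σ⟩⟩) ?_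
  rintro ⟨σ, hσ⟩ ⟨σ', hσ'⟩ h
  rw [Sigma.mk.injEq] at h
  obtain ⟨h1, h2⟩ := h
  refine Subtype.ext ?_
  simp only at h1 h2
  have := (Subtype.heq_iff_coe_heq rfl (by rw [h1])).mp h2
  exact eq_of_heq this

end Twist

/-! ### Averaging -/

section Average

variable {n : ℕ}

/-- Multiply the matching of the arc `(0, 2)` so that `hex` is multiplied by `τ` on the left. -/
def shift (τ : Perm (Fin n)) (M : LiftData 3 n) : LiftData 3 n := fun e =>
  if e.1 = (0, 2) then M e * τ⁻¹ else M e

/-- `shift` as a bijection. -/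
def shiftEquiv (τ : Perm (Fin n)) : LiftData 3 n ≃ LiftData 3 n where
  toFun := shift τ
  invFun := shift τ⁻¹
  left_inv M := by funext e; unfold shift; split_ifs <;> simp
  right_inv M := by funext e; unfold shift; split_ifs <;> simp

lemma mt_shift (τ : Perm (Fin n)) (M : LiftData 3 n) (x y : Fin 3) (hxy : (x, y) ≠ (0, 2)) :
    mt (shift τ M) x y = mt M x y := by
  unfold mt shift
  split_ifs with h1
  · rfl
  · rfl

lemma hex_shift (τ : Perm (Fin n)) (M : LiftData 3 n) : hex (shift τ M) = τ * hex M := by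
  unfold hex
  rw [mt_shift τ M 1 2 (by decide), mt_shift τ M 1 0 (by decide), mt_shift τ M 2 0 (by decide),
    mt_shift τ M 2 1 (by decide), mt_shift τ M 0 1 (by decide)]
  have : mt (shift τ M) 0 2 = mt M 0 2 * τ⁻¹ := by
    unfold mt shift
    simp
  rw [this, mul_inv_rev, inv_inv, mul_assoc]

lemma sum_hex (g : Perm (Fin n) → ℝ) :
    (Fintype.card (Perm (Fin n)) : ℝ) * ∑ M : LiftData 3 n, g (hex M) =
      (Fintype.card (LiftData 3 n) : ℝ) * ∑ π : Perm (Fin n), g π := by
  have h1 : ∀ τ : Perm (Fin n), ∑ M : LiftData 3 n, g (hex M) =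
      ∑ M : LiftData 3 n, g (τ * hex M) := by
    intro τ
    rw [← (shiftEquiv τ).sum_comp]
    refine Finset.sum_congr rfl fun M _ => ?_
    rw [← hex_shift]
    rfl
  calc (Fintype.card (Perm (Fin n)) : ℝ) * ∑ M : LiftData 3 n, g (hex M)
      = ∑ τ : Perm (Fin n), ∑ M : LiftData 3 n, g (hex M) := by simp
    _ = ∑ τ : Perm (Fin n), ∑ M : LiftData 3 n, g (τ * hex M) :=
        Finset.sum_congr rfl fun τ _ => h1 τ
    _ = ∑ M : LiftData 3 n, ∑ τ : Perm (Fin n), g (τ * hex M) := Finset.sum_comm
    _ = ∑ M : LiftData 3 n, ∑ π : Perm (Fin n), g π := by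
        refine Finset.sum_congr rfl fun M _ => ?_
        exact Equiv.sum_comp (Equiv.mulRight (hex M)) g
    _ = _ := by simp

lemma sum_twist :
    (Fintype.card (Perm (Fin n)) : ℝ) *
      (Nat.card {M : LiftData 3 n // IsHamiltonian (LiftAdj M)} : ℝ) =
      ∑ M : LiftData 3 n,
        (Nat.card {σ : Perm (Fin n) // IsHamiltonian (LiftAdj (twist σ M))} : ℝ) := by
  classical
  have h1 : ∀ σ : Perm (Fin n),
      (Nat.card {M : LiftData 3 n // IsHamiltonian (LiftAdj M)} : ℝ) =
      ∑ M : LiftData 3 n, if IsHamiltonian (LiftAdj (twist σ M)) then (1 : ℝ) else 0 := by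
    intro σ
    rw [Nat.card_eq_fintype_card, Fintype.card_subtype, Finset.card_filter]
    push_cast
    exact ((twistEquiv σ).sum_comp fun M => if IsHamiltonian (LiftAdj M) then (1 : ℝ) else 0).symm
  calc (Fintype.card (Perm (Fin n)) : ℝ) *
      (Nat.card {M : LiftData 3 n // IsHamiltonian (LiftAdj M)} : ℝ)
      = ∑ σ : Perm (Fin n), (Nat.card {M : LiftData 3 n // IsHamiltonian (LiftAdj M)} : ℝ) := by
        simp
    _ = ∑ σ : Perm (Fin n), ∑ M : LiftData 3 n,
          if IsHamiltonian (LiftAdj (twist σ M)) then (1 : ℝ) else 0 :=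
        Finset.sum_congr rfl fun σ _ => h1 σ
    _ = ∑ M : LiftData 3 n, ∑ σ : Perm (Fin n),
          if IsHamiltonian (LiftAdj (twist σ M)) then (1 : ℝ) else 0 := Finset.sum_comm
    _ = _ := by
        refine Finset.sum_congr rfl fun M _ => ?_
        rw [Nat.card_eq_fintype_card, Fintype.card_subtype, Finset.card_filter]
        push_cast
        rfl

/-- `min(1, y) ≤ √y`, in the form used below. -/
lemma le_sqrt_of (hn : 2 ≤ n) (c N : ℕ) (h1 : c ≤ N * (n - 1).factorial) (h2 : c ≤ n.factorial) :
    (c : ℝ) ≤ n.factorial * (√(N : ℝ) / √(n : ℝ)) := by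
  have hfac : n.factorial = n * (n - 1).factorial := by
    rw [Nat.mul_factorial_pred (by omega)]
  have hn0 : (0 : ℝ) < n := by exact_mod_cast (by omega : 0 < n)
  have hsq : (c : ℝ) ^ 2 ≤ ((n.factorial : ℝ) * (√(N : ℝ) / √(n : ℝ))) ^ 2 := by
    have h1' : (c : ℝ) ≤ N * (n - 1).factorial := by exact_mod_cast h1
    have h2' : (c : ℝ) ≤ n.factorial := by exact_mod_cast h2
    have hfac' : (n.factorial : ℝ) = n * (n - 1).factorial := by exact_mod_cast hfac
    rw [mul_pow, div_pow, Real.sq_sqrt (Nat.cast_nonneg _), Real.sq_sqrt hn0.le]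
    calc (c : ℝ) ^ 2 = c * c := sq _
      _ ≤ n.factorial * (N * (n - 1).factorial) :=
          mul_le_mul h2' h1' (Nat.cast_nonneg _) (Nat.cast_nonneg _)
      _ = (n.factorial : ℝ) ^ 2 * (N / n) := by
          rw [hfac']; field_simp
  exact le_of_sq_le_sq hsq (by positivity)

lemma hamProb_le (hn : 2 ≤ n) :
    hamProb 3 n ≤ (∏ i ∈ Finset.range n, (√2 + i)) / n.factorial / √(n : ℝ) := by
  have hP : (0 : ℝ) < Fintype.card (Perm (Fin n)) := by exact_mod_cast Fintype.card_pos
  have hL : (0 : ℝ) < Fintype.card (LiftData 3 n) := by exact_mod_cast Fintype.card_pos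
  have hPf : (Fintype.card (Perm (Fin n)) : ℝ) = n.factorial := by
    rw [Fintype.card_perm, Fintype.card_fin]
  have hn0 : (0 : ℝ) < √(n : ℝ) := Real.sqrt_pos.mpr (by exact_mod_cast (by omega : 0 < n))
  have h1 := sum_twist (n := n)
  have h2 : ∑ M : LiftData 3 n,
        (Nat.card {σ : Perm (Fin n) // IsHamiltonian (LiftAdj (twist σ M))} : ℝ) ≤
      ∑ M : LiftData 3 n, n.factorial * (√((invSets (hex M)).card : ℝ) / √(n : ℝ)) := by
    refine Finset.sum_le_sum fun M _ => le_sqrt_of hn _ _ (card_ham_twist_le hn M) ?_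
    refine (Nat.card_le_card_of_injective _ Subtype.val_injective).trans (le_of_eq ?_)
    rw [Nat.card_eq_fintype_card, Fintype.card_perm, Fintype.card_fin]
  have h3 := sum_hex (n := n) fun π => √((invSets π).card : ℝ)
  have h4 : (Nat.card {M : LiftData 3 n // IsHamiltonian (LiftAdj M)} : ℝ) ≤
      (∑ M : LiftData 3 n, √((invSets (hex M)).card : ℝ)) / √(n : ℝ) := by
    rw [← h1, ← Finset.mul_sum, ← Finset.sum_div, hPf] at h2
    exact le_of_mul_le_mul_left h2 (by rw [← hPf]; exact hP)
  have h5 : (∑ M : LiftData 3 n, √((invSets (hex M)).card : ℝ)) ≤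
      Fintype.card (LiftData 3 n) * ((∏ i ∈ Finset.range n, (√2 + i)) / n.factorial) := by
    rw [hPf] at h3 hP
    rw [← mul_div_assoc, le_div_iff₀ hP, mul_comm _ (n.factorial : ℝ), h3]
    exact mul_le_mul_of_nonneg_left (sum_sqrt_le n) hL.le
  unfold hamProb
  rw [Nat.card_eq_fintype_card (α := LiftData 3 n), div_le_iff₀ hL]
  refine h4.trans ?_
  rw [div_mul_eq_mul_div, div_le_div_iff_of_pos_right hn0, mul_comm]
  exact h5

end Average

/-! ### Asymptotics -/

lemma prod_bound (n : ℕ) : (∏ i ∈ Finset.range n, (√2 + i)) / n.factorial ≤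
    Real.exp ((√2 - 1) * (harmonic n : ℝ)) := by
  have h2 : (1 : ℝ) ≤ √2 := by
    rw [Real.one_le_sqrt]; norm_num
  induction n with
  | zero => simp
  | succ n ih =>
    rw [Finset.prod_range_succ, Nat.factorial_succ, harmonic_succ]
    have hn : (0 : ℝ) < (n : ℝ) + 1 := by positivity
    have hcast : ((harmonic n + (((n + 1 : ℕ) : ℚ))⁻¹ : ℚ) : ℝ) =
        (harmonic n : ℝ) + ((n : ℝ) + 1)⁻¹ := by push_cast; ring
    have hcast2 : (((n + 1) * n.factorial : ℕ) : ℝ) = ((n : ℝ) + 1) * n.factorial := by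
      push_cast; ring
    rw [hcast, hcast2, mul_add (√2 - 1), Real.exp_add]
    have h3 : (√2 + n) / ((n : ℝ) + 1) ≤ Real.exp ((√2 - 1) * ((n : ℝ) + 1)⁻¹) := by
      have := Real.add_one_le_exp ((√2 - 1) * ((n : ℝ) + 1)⁻¹)
      refine le_trans (le_of_eq ?_) this
      field_simp
      ring
    calc (∏ i ∈ Finset.range n, (√2 + (i : ℝ))) * (√2 + n) / (((n : ℝ) + 1) * n.factorial)
        = ((∏ i ∈ Finset.range n, (√2 + (i : ℝ))) / n.factorial) * ((√2 + n) / ((n : ℝ) + 1)) := by
          field_simp
      _ ≤ Real.exp ((√2 - 1) * (harmonic n : ℝ)) * Real.exp ((√2 - 1) * ((n : ℝ) + 1)⁻¹) :=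
          mul_le_mul ih h3 (by positivity) (Real.exp_nonneg _)

/-- The probability that a random `n`-lift of the complete digraph on three vertices is Hamiltonian
tends to `0`. -/
theorem result : Tendsto (fun n : ℕ => hamProb 3 n) atTop (𝓝 0) := by
  have hsqrt : √2 < 3 / 2 := by
    rw [Real.sqrt_lt' (by norm_num)]; norm_num
  have h2 : (1 : ℝ) ≤ √2 := by
    rw [Real.one_le_sqrt]; norm_num
  have hlim : Tendsto (fun n : ℕ => Real.exp (√2 - 1) * (n : ℝ) ^ (-(3 / 2 - √2))) atTop
      (𝓝 (Real.exp (√2 - 1) * 0)) :=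
    ((tendsto_rpow_neg_atTop (by linarith)).comp tendsto_natCast_atTop_atTop).const_mul _
  rw [mul_zero] at hlim
  refine tendsto_of_tendsto_of_tendsto_of_le_of_le' tendsto_const_nhds hlim
    (Eventually.of_forall fun n => ?_) ?_
  · unfold hamProb; positivity
  · filter_upwards [eventually_ge_atTop 2] with n hn
    have hn0 : (0 : ℝ) < n := by exact_mod_cast (by omega : 0 < n)
    refine (hamProb_le hn).trans ?_
    have h3 : (∏ i ∈ Finset.range n, (√2 + (i : ℝ))) / n.factorial ≤
        Real.exp (√2 - 1) * (n : ℝ) ^ (√2 - 1) := by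
      refine (prod_bound n).trans ?_
      rw [Real.rpow_def_of_pos hn0, ← Real.exp_add]
      refine Real.exp_le_exp.mpr ?_
      have := harmonic_le_one_add_log n
      nlinarith
    calc (∏ i ∈ Finset.range n, (√2 + (i : ℝ))) / n.factorial / √(n : ℝ)
        ≤ Real.exp (√2 - 1) * (n : ℝ) ^ (√2 - 1) / √(n : ℝ) :=
          div_le_div_of_nonneg_right h3 (Real.sqrt_nonneg _)
      _ = Real.exp (√2 - 1) * (n : ℝ) ^ (-(3 / 2 - √2)) := by
          rw [mul_div_assoc, Real.sqrt_eq_rpow (n : ℝ), ← Real.rpow_sub hn0]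
          congr 2
          ring

end Pool.Agent.Results.MP_ff6929_pr.NotHamiltonian
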